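import Pool.Agent.TH852.SP.Stmts

/-!
# The Hilbert function of a surface in `P^3`

The count of the monomials is the one of `Pool.Agent.Helper947.Geo.G5`.
-/

set_option autoImplicit false

namespace Pool.Agent.TH370.SP

open MvPolynomial Pool.Agent.W607 Pool.Agent.TH852.SP

/-- the number of monomials -/
theorem finrank_forms (N m : ℕ) : Module.finrank ℂ (homogeneousSubmodule (Fin (N + 1)) ℂ m) =
    (N + m).choose N := by
  classical
  have e0 : ({d : Fin (N + 1) →₀ ℕ | d.degree = m} : Set (Fin (N + 1) →₀ ℕ)) =
      ((Finset.univ : Finset (Fin (N + 1))).finsuppAntidiag m : Set (Fin (N + 1) →₀ ℕ)) := by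
    ext d
    simp [Finset.mem_finsuppAntidiag, Finsupp.degree_eq_sum]
  rw [homogeneousSubmodule_eq_finsupp_supported, e0,
    LinearEquiv.finrank_eq (AddMonoidAlgebra.supportedEquivFinsupp (S := ℂ) (R := ℂ)
      ((Finset.univ : Finset (Fin (N + 1))).finsuppAntidiag m : Set (Fin (N + 1) →₀ ℕ))),
    Module.finrank_finsupp_self]
  simp only [SetLike.coe_sort_coe, Fintype.card_coe]
  rw [Finset.card_finsuppAntidiag_nat_eq_choose]
  rw [Finset.card_univ, Fintype.card_fin]
  rw [show N + 1 + m - 1 = N + m by omega]
  exact Nat.choose_symm_add.symm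

theorem finite_forms (N m : ℕ) : Module.Finite ℂ (homogeneousSubmodule (Fin (N + 1)) ℂ m) := by
  apply Module.finite_of_finrank_pos
  rw [finrank_forms]
  exact Nat.choose_pos (Nat.le_add_right _ _)

theorem comp_mul {F : R4} {d : ℕ} (hF : F.IsHomogeneous d) (y : R4) (t : ℕ) :
    homogeneousComponent (t + d) (F * y) = F * homogeneousComponent t y := by
  have h1 : ∀ i, homogeneousComponent (t + d) (F * homogeneousComponent i y) =
      if i = t then F * homogeneousComponent t y else 0 := by
    intro i
    have h2 : F * homogeneousComponent i y ∈ homogeneousSubmodule (Fin (3 + 1)) ℂ (d + i) :=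
      (mem_homogeneousSubmodule _ _).2 (hF.mul (homogeneousComponent_isHomogeneous i y))
    rw [homogeneousComponent_of_mem h2]
    by_cases hi : i = t
    · subst hi
      rw [if_pos (by omega), if_pos rfl]
    · rw [if_neg (by omega), if_neg hi]
  conv_lhs => rw [← sum_homogeneousComponent y]
  rw [Finset.mul_sum, map_sum, Finset.sum_congr rfl fun i _ => h1 i, Finset.sum_ite_eq']
  split_ifs with h
  · rfl
  · rw [homogeneousComponent_eq_zero t y (by
      rw [Finset.mem_range] at h
      omega), mul_zero]

theorem hilb_add (I : Ideal R4) (t : ℕ) :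
    hilb I t + Module.finrank ℂ (LinearMap.ker ((Ideal.Quotient.mkₐ ℂ I).toLinearMap.domRestrict
      (homogeneousSubmodule (Fin (3 + 1)) ℂ t))) = (t + 3).choose 3 := by
  have := finite_forms 3 t
  have h := LinearMap.finrank_range_add_finrank_ker
    ((Ideal.Quotient.mkₐ ℂ I).toLinearMap.domRestrict (homogeneousSubmodule (Fin (3 + 1)) ℂ t))
  rw [LinearMap.range_domRestrict, finrank_forms] at h
  rw [hilb, add_comm t 3]
  exact h

theorem mem_ker {F : R4} {t : ℕ} (x : homogeneousSubmodule (Fin (3 + 1)) ℂ t) :
    x ∈ LinearMap.ker ((Ideal.Quotient.mkₐ ℂ (Ideal.span {F})).toLinearMap.domRestrict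
      (homogeneousSubmodule (Fin (3 + 1)) ℂ t)) ↔ F ∣ (x : R4) := by
  rw [LinearMap.mem_ker, LinearMap.domRestrict_apply, AlgHom.toLinearMap_apply,
    Ideal.Quotient.mkₐ_eq_mk, Ideal.Quotient.eq_zero_iff_mem, Ideal.mem_span_singleton]

theorem t_HF : S_HF := by
  intro d F hF hF0
  refine ⟨fun t ht => ?_, fun t => ?_⟩
  · have h := hilb_add (Ideal.span {F}) t
    have h0 : LinearMap.ker ((Ideal.Quotient.mkₐ ℂ (Ideal.span {F})).toLinearMap.domRestrict
        (homogeneousSubmodule (Fin (3 + 1)) ℂ t)) = ⊥ := by
      rw [Submodule.eq_bot_iff]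
      intro x hx
      rw [mem_ker] at hx
      obtain ⟨y, hy⟩ := hx
      by_contra hx0
      have hx1 : (x : R4) ≠ 0 := fun h => hx0 (Subtype.ext h)
      have hxt : (x : R4).totalDegree = t := ((mem_homogeneousSubmodule _ _).1 x.2).totalDegree hx1
      have hy0 : y ≠ 0 := by
        rintro rfl
        exact hx1 (by rw [hy, mul_zero])
      rw [hy, totalDegree_mul_of_isDomain hF0 hy0, hF.totalDegree hF0] at hxt
      omega
    rw [h0, finrank_bot] at h
    exact h
  · have h := hilb_add (Ideal.span {F}) (t + d)
    have h0 : Module.finrank ℂ (LinearMap.ker ((Ideal.Quotient.mkₐ ℂ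
        (Ideal.span {F})).toLinearMap.domRestrict
        (homogeneousSubmodule (Fin (3 + 1)) ℂ (t + d)))) = (t + 3).choose 3 := by
      have hm : ∀ y : homogeneousSubmodule (Fin (3 + 1)) ℂ t,
          F * (y : R4) ∈ homogeneousSubmodule (Fin (3 + 1)) ℂ (t + d) := by
        intro y
        rw [add_comm t d]
        exact (mem_homogeneousSubmodule _ _).2 (hF.mul ((mem_homogeneousSubmodule _ _).1 y.2))
      let φ : homogeneousSubmodule (Fin (3 + 1)) ℂ t →ₗ[ℂ]
          (LinearMap.ker ((Ideal.Quotient.mkₐ ℂ (Ideal.span {F})).toLinearMap.domRestrict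
            (homogeneousSubmodule (Fin (3 + 1)) ℂ (t + d)))) :=
        { toFun := fun y => ⟨⟨F * (y : R4), hm y⟩, (mem_ker _).2 ⟨_, rfl⟩⟩
          map_add' := fun y z => by
            apply Subtype.ext
            apply Subtype.ext
            simp [mul_add]
          map_smul' := fun c y => by
            apply Subtype.ext
            apply Subtype.ext
            simp }
      have hinj : Function.Injective φ := by
        intro y z hyz
        have h1 : F * (y : R4) = F * (z : R4) := congrArg (fun w => ((w.1 :
          homogeneousSubmodule (Fin (3 + 1)) ℂ (t + d)) : R4)) hyz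
        exact Subtype.ext (mul_left_cancel₀ hF0 h1)
      have hsur : Function.Surjective φ := by
        rintro ⟨⟨x, hx⟩, hxk⟩
        obtain ⟨y, hy⟩ := (mem_ker _).1 hxk
        simp only at hy
        refine ⟨⟨homogeneousComponent t y, (mem_homogeneousSubmodule _ _).2
          (homogeneousComponent_isHomogeneous t y)⟩, ?_⟩
        apply Subtype.ext
        apply Subtype.ext
        change F * homogeneousComponent t y = x
        rw [← comp_mul hF, ← hy, homogeneousComponent_of_mem hx, if_pos rfl]
      rw [← (LinearEquiv.ofBijective φ ⟨hinj, hsur⟩).finrank_eq, finrank_forms, add_comm]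
    rw [h0] at h
    rw [h]

end Pool.Agent.TH370.SP
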